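import Pool.Agent.H.MP_e057e5_lc.D

namespace Pool.Agent.Results.MP_e057e5_lc.Hard

open Pool.Agent.Lib.CX Finset

variable {n : ℕ}

/-- independence in the 2-dimensional rigidity matroid: every nonempty `F ⊆ T` has
`|F| ≤ 2 |V(F)| - 3` -/
def Indep (T : Finset (Sym2 (Fin n))) : Prop :=
  ∀ F ⊆ T, F.Nonempty → F.card + 3 ≤ 2 * (F.biUnion Sym2.toFinset).card

/-- the rigidity matroid of `G` has rank `2 n - 3` -/
def Rigid (G : SimpleGraph (Fin n)) : Prop :=
  IsGreatest {k | ∃ T : Finset (Sym2 (Fin n)), ↑T ⊆ G.edgeSet ∧ Indep T ∧ T.card = k} (2 * n - 3)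

/-- the least number of edges whose deletion destroys rigidity -/
noncomputable def c (G : SimpleGraph (Fin n)) : ℕ :=
  sInf {k | ∃ F : Finset (Sym2 (Fin n)), ↑F ⊆ G.edgeSet ∧ F.card = k ∧ ¬ Rigid (G.deleteEdges F)}

theorem Indep.le {T : Finset (Sym2 (Fin n))} (h : Indep T) {F : Finset (Sym2 (Fin n))} (h1 : F ⊆ T)
    {Y : Finset (Fin n)} (h2 : ∀ e ∈ F, ∀ v ∈ e, v ∈ Y) : F.card ≤ 2 * Y.card - 3 := by
  rcases F.eq_empty_or_nonempty with rfl | h3
  · exact Nat.zero_le _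
  have := h F h1 h3
  have : (F.biUnion Sym2.toFinset).card ≤ Y.card :=
    card_le_card (biUnion_subset.2 fun e he v hv => h2 e he v (Sym2.mem_toFinset.1 hv))
  omega

theorem result : NPHard fun a : {a : Gr × ℕ // 2 ≤ a.1.n ∧ Rigid a.1.G} => c a.1.1.G ≤ a.1.2 := by
  classical
  unfold c Rigid
  simp only [SimpleGraph.edgeSet_deleteEdges]
  refine H.MP_e057e5_lc.red' (fun n E => IsGreatest {k | ∃ T : Finset (Sym2 (Fin n)), ↑T ⊆ E ∧
    Indep T ∧ T.card = k} (2 * n - 3)) (fun n E h => ?_) fun n E I Y h1 h2 ⟨⟨T, h3, h4, h5⟩, _⟩ => ?_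
  · obtain ⟨T, h1, -, h2, h3⟩ := h.sp
    rw [card_univ, Fintype.card_fin] at h2
    refine ⟨⟨T, h1, fun F h4 h5 => ?_, by omega⟩, fun k ⟨T, _, h4, h5⟩ => by
      simpa [h5] using h4.le subset_rfl (Y := univ) (by simp)⟩
    have := le_trans (card_le_card (s := F) fun e he => by
      simp only [mem_filter, mem_biUnion, Sym2.mem_toFinset]
      exact ⟨h4 he, fun v hv => ⟨e, he, hv⟩⟩) (h3 (F.biUnion Sym2.toFinset))
    have := card_pos.2 h5
    omega
  · have := ((card_le_card fun e he => by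
      obtain ⟨i, k1, k2⟩ := (h1 e (h3 he)).2
      exact mem_biUnion.2 ⟨i, k1, mem_filter.2 ⟨he, k2⟩⟩).trans (card_biUnion_le (s := I)
        (t := fun i => {e ∈ T | ∀ v ∈ e, v ∈ Y i}))).trans (sum_le_sum fun i _ =>
          h4.le (filter_subset _ _) fun e he => (mem_filter.1 he).2)
    omega

end Pool.Agent.Results.MP_e057e5_lc.Hard
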